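import Pool.Agent.Helper11.PV.St2

/-!
# Project PV, module AEB: almost every `p`, uniform constant (Lebesgue differentiation)
-/

set_option autoImplicit false

namespace Pool.Agent.Helper72.PV

open Finset Filter MeasureTheory Pool.Agent.Helper82.CN Pool.Agent.Helper11.PV

private lemma cont_bw (b : Bool) : Continuous (fun p : ℝ => bw p b) := by
  unfold bw
  cases b
  · simp only [Bool.false_eq_true, if_false]; fun_prop
  · simp only [if_true]; fun_prop

private lemma cont_EE {ι : Type} [Fintype ι] [DecidableEq ι] (F : ℝ → (ι → Bool) → ℝ)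
    (hF : ∀ ω, Continuous fun p => F p ω) : Continuous fun p : ℝ => EE p (F p) := by
  unfold EE
  exact continuous_finsetSum _ fun ω _ =>
    (continuous_finsetProd _ fun i _ => cont_bw (ω i)).mul (hF ω)

private lemma cont_vn (n : ℕ) : Continuous fun p : ℝ => vn p n := by
  have h1 : Continuous fun p : ℝ => fn p n := by
    unfold fn
    exact cont_EE (fun _ ω => ch (gr ω)) fun _ => continuous_const
  unfold vn
  exact cont_EE (fun p ω => (ch (gr ω) - fn p n) ^ 2) fun _ => (continuous_const.sub h1).pow 2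

private lemma cont_hh (N : ℕ) : Continuous (hh N) := by
  unfold hh
  exact (continuous_finsetSum _ fun n _ => (cont_vn n).mul continuous_const).div_const _

private lemma hh_nonneg {p : ℝ} (h0 : 0 ≤ p) (h1 : p ≤ 1) (N : ℕ) : 0 ≤ hh N p := by
  unfold hh
  refine div_nonneg (Finset.sum_nonneg fun n _ => ?_) (Nat.cast_nonneg N)
  exact mul_nonneg (EE_nonneg h0 h1 fun _ => sq_nonneg _)
    (div_nonneg (pow_nonneg (Real.log_natCast_nonneg n) 3) (Nat.cast_nonneg n))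

/-- the bad set -/
private def Bad (p₀ p₁ C : ℝ) (N₁ : ℕ) : Set ℝ :=
  {p | p ∈ Set.Icc p₀ p₁ ∧ ∀ N, N₁ ≤ N → C ≤ hh N p}

private lemma bad_meas (p₀ p₁ C : ℝ) (N₁ : ℕ) : MeasurableSet (Bad p₀ p₁ C N₁) := by
  have h1 : IsClosed (Bad p₀ p₁ C N₁) := by
    have e : Bad p₀ p₁ C N₁ =
        Set.Icc p₀ p₁ ∩ ⋂ N, ⋂ (_ : N₁ ≤ N), {p | C ≤ hh N p} := by
      ext p
      simp only [Bad, Set.mem_ofPred_eq, Set.mem_inter_iff, Set.mem_iInter]
    rw [e]
    exact isClosed_Icc.inter (isClosed_iInter fun N => isClosed_iInter fun _ =>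
      isClosed_le continuous_const (cont_hh N))
  exact h1.measurableSet

private lemma bad_ae (p₀ p₁ C₀ : ℝ) (hp0 : 0 < p₀) (hp1 : p₁ ≤ 1) (hC : 0 < C₀)
    (h : ∀ a b : ℝ, p₀ ≤ a → a < b → b ≤ p₁ → ∃ N₀ : ℕ, ∀ N : ℕ, N₀ ≤ N →
      ∫ p in a..b, hh N p ≤ C₀ * (b - a)) (N₁ : ℕ) :
    ∀ᵐ p : ℝ, p ∉ Bad p₀ p₁ (2 * C₀) N₁ := by
  set B := Bad p₀ p₁ (2 * C₀) N₁ with hB
  have hBm : MeasurableSet B := bad_meas _ _ _ _
  have hloc : LocallyIntegrable (B.indicator (fun _ => (1 : ℝ))) volume :=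
    (locallyIntegrable_const (1 : ℝ)).indicator hBm
  have hne : ∀ᵐ p : ℝ, p ≠ p₁ := by
    rw [ae_iff]
    simp
  filter_upwards [_root_.LocallyIntegrable.ae_hasDerivAt_integral hloc, hne] with x hx hxne hxB
  have hx1 := hx x
  have hval : B.indicator (fun _ => (1 : ℝ)) x = 1 := Set.indicator_of_mem hxB _
  rw [hval, hasDerivAt_iff_tendsto_slope] at hx1
  have hxI : x ∈ Set.Icc p₀ p₁ := hxB.1
  have hxlt : x < p₁ := lt_of_le_of_ne hxI.2 hxne
  have hev : ∀ᶠ y in nhdsWithin x (Set.Ioi x),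
      3 / 4 < slope (fun x' => ∫ t in x..x', B.indicator (fun _ => (1 : ℝ)) t) x y := by
    have h2 := hx1.eventually (lt_mem_nhds (show (3 / 4 : ℝ) < 1 by norm_num))
    exact (nhdsWithin_mono x (fun y (hy : x < y) => ne_of_gt hy)) h2
  have hev2 : ∀ᶠ y in nhdsWithin x (Set.Ioi x), y ∈ Set.Ioo x p₁ :=
    Ioo_mem_nhdsGT hxlt
  obtain ⟨y, hy1, hy2⟩ := (hev.and hev2).exists
  have hyx : 0 < y - x := sub_pos.2 hy2.1
  have hint : 3 / 4 * (y - x) < ∫ t in x..y, B.indicator (fun _ => (1 : ℝ)) t := by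
    simp only [slope, vsub_eq_sub, smul_eq_mul, intervalIntegral.integral_same, sub_zero] at hy1
    rw [inv_mul_eq_div, lt_div_iff₀ hyx] at hy1
    exact hy1
  obtain ⟨N₀, hN₀⟩ := h x y hxI.1 hy2.1 hy2.2.le
  have hup := hN₀ (max N₀ N₁) (le_max_left _ _)
  have hlow : ∫ t in x..y, (2 * C₀) * B.indicator (fun _ => (1 : ℝ)) t ≤
      ∫ t in x..y, hh (max N₀ N₁) t := by
    apply intervalIntegral.integral_mono_on hy2.1.le
    · exact ((hloc.integrableOn_isCompact isCompact_uIcc).mono_set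
        Set.uIoc_subset_uIcc).const_mul (2 * C₀) |> intervalIntegrable_iff.mpr
    · exact (cont_hh _).intervalIntegrable _ _
    · intro t ht
      by_cases htB : t ∈ B
      · rw [Set.indicator_of_mem htB, mul_one]
        exact htB.2 _ (le_max_right _ _)
      · rw [Set.indicator_of_notMem htB, mul_zero]
        exact hh_nonneg (hp0.le.trans (hxI.1.trans ht.1)) (ht.2.trans (hy2.2.le.trans hp1)) _
  rw [intervalIntegral.integral_const_mul] at hlow
  nlinarith [mul_lt_mul_of_pos_left hint (show (0 : ℝ) < 2 * C₀ by linarith),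
    mul_pos hC hyx]

theorem tAEB (hLCH : StLCH) : Pool.Agent.Helper11.PV.StAEB := by
  intro p₀ p₁ hp0 hp01 hp1
  obtain ⟨C₀, hC₀, h⟩ := hLCH p₀ p₁ hp0 hp01 hp1
  have hp1' : p₁ ≤ 1 := by
    have : 0 < 1 / Real.exp 2 := by positivity
    linarith
  refine ⟨2 * C₀, by linarith, ?_⟩
  have hA : ∀ N₁ : ℕ, ∀ᵐ p : ℝ, p ∉ Bad p₀ p₁ (2 * C₀) N₁ :=
    bad_ae p₀ p₁ C₀ hp0 hp1' hC₀ h
  rw [← ae_all_iff] at hA
  filter_upwards [hA] with p hp h0 h1
  rw [Filter.Frequently]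
  intro hev
  obtain ⟨N₁, hN₁⟩ := eventually_atTop.1 hev
  exact hp N₁ ⟨⟨h0, h1⟩, fun N hN => (not_le.1 (hN₁ N hN)).le⟩

end Pool.Agent.Helper72.PV
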