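import Pool.Agent.Helper11.PV.St

/-!
# Project PV, module LLG: transport of the log-Sobolev type inequality to every finite index set
-/

set_option autoImplicit false

namespace Pool.Agent.Helper72.PV

open Finset Pool.Agent.Helper82.CN Pool.Agent.Helper11.PV

theorem tLLG (hLLI : StLLI) : Pool.Agent.Helper11.PV.StLLG := by
  intro p ι _ _ F s hp0 hp1 hs
  set e : ι ≃ Fin (Fintype.card ι) := Fintype.equivFin ι with he
  set G : (Fin (Fintype.card ι) → Bool) → ℝ := fun ω => F (fun i => ω (e i)) with hG
  have h := hLLI p (Fintype.card ι) G s hp0 hp1 hs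
  have hE : ∀ H : (ι → Bool) → ℝ,
      EE p (fun ω : Fin (Fintype.card ι) → Bool => H (fun i => ω (e i))) = EE p H :=
    fun H => EE_equiv p e H
  have hV : VV p G = VV p F := by
    unfold VV
    have h1 : EE p G = EE p F := hE F
    rw [h1]
    exact hE (fun ω => (F ω - EE p F) ^ 2)
  have hD : ∀ (i : ι) (ω : Fin (Fintype.card ι) → Bool),
      DD G (e i) ω = DD F i (fun j => ω (e j)) := by
    intro i ω
    have hu : ∀ b : Bool, (fun j => Function.update ω (e i) b (e j)) =
        Function.update (fun j => ω (e j)) i b := by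
      intro b
      funext j
      by_cases hj : j = i
      · subst hj
        simp
      · rw [Function.update_of_ne hj, Function.update_of_ne (fun h' => hj (e.injective h'))]
    simp only [DD, hG]
    rw [hu true, hu false]
  have hS1 : ∑ i, (EE p (fun ω => |DD G i ω|)) ^ 2 = ∑ i, (EE p (fun ω => |DD F i ω|)) ^ 2 := by
    rw [← e.sum_comp]
    refine Finset.sum_congr rfl fun i _ => ?_
    have : EE p (fun ω => |DD G (e i) ω|) = EE p (fun ω => |DD F i ω|) := by
      simp only [hD]
      exact hE (fun ω => |DD F i ω|)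
    rw [this]
  have hS2 : ∑ i, EE p (fun ω => DD G i ω ^ 2) = ∑ i, EE p (fun ω => DD F i ω ^ 2) := by
    rw [← e.sum_comp]
    refine Finset.sum_congr rfl fun i _ => ?_
    simp only [hD]
    exact hE (fun ω => DD F i ω ^ 2)
  rw [hV, hS1, hS2] at h
  exact h

end Pool.Agent.Helper72.PV
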