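import Pool.Agent.Helper61.PV.St

set_option autoImplicit false

namespace Pool.Agent.Helper72.PV

open Pool.Agent.Helper61.PV Finset

private theorem log_le_size (H : ℕ) (n : ℤ) (hH : 1 ≤ H) (h : (H : ℤ) ≤ n ^ 2) :
    Real.log H / 2 ≤ ((max 1 (Nat.size n.natAbs) : ℕ) : ℝ) := by
  set s := Nat.size n.natAbs with hs
  have h1 : n.natAbs < 2 ^ s := Nat.lt_size_self _
  have h2 : (n.natAbs : ℤ) ^ 2 = n ^ 2 := Int.natAbs_sq n
  have h3 : H ≤ n.natAbs ^ 2 := by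
    have : (H : ℤ) ≤ ((n.natAbs ^ 2 : ℕ) : ℤ) := by push_cast; push_cast at h2; linarith
    exact_mod_cast this
  have h4 : (H : ℝ) ≤ ((2 : ℝ) ^ s) ^ 2 := by
    have h5 : (H : ℝ) ≤ (n.natAbs : ℝ) ^ 2 := by exact_mod_cast h3
    have h6 : (n.natAbs : ℝ) ≤ (2 : ℝ) ^ s := by exact_mod_cast h1.le
    calc (H : ℝ) ≤ (n.natAbs : ℝ) ^ 2 := h5
      _ ≤ ((2 : ℝ) ^ s) ^ 2 := by gcongr
  have hHp : (0 : ℝ) < H := by exact_mod_cast hH
  have h7 : Real.log H ≤ 2 * (s * Real.log 2) := by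
    calc Real.log H ≤ Real.log (((2 : ℝ) ^ s) ^ 2) := Real.log_le_log hHp h4
      _ = 2 * (s * Real.log 2) := by rw [Real.log_pow, Real.log_pow]; push_cast; ring
  have h8 : Real.log 2 ≤ 1 := by have := Real.log_two_lt_d9; linarith
  have h9 : (s : ℝ) * Real.log 2 ≤ s := by
    have : (0 : ℝ) ≤ s := by positivity
    nlinarith
  have h10 : (s : ℝ) ≤ ((max 1 s : ℕ) : ℝ) := by exact_mod_cast le_max_right 1 s
  linarith

theorem hLen (hLe1 : StLe1) : StLen := by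
  classical
  intro ε hε
  refine ⟨max 8 ⌈(16 / ε ^ 2) ^ 3⌉₊, fun H hH d hd hdH => ?_⟩
  have hH8 : 8 ≤ H := le_trans (le_max_left _ _) hH
  have hHe : (16 / ε ^ 2) ^ 3 ≤ (H : ℝ) := by
    have h1 : ⌈(16 / ε ^ 2) ^ 3⌉₊ ≤ H := le_trans (le_max_right _ _) hH
    exact (Nat.le_ceil _).trans (by exact_mod_cast h1)
  have hHp : (0 : ℝ) < H := by
    have : 0 < H := by omega
    exact_mod_cast this
  set t : ℝ := (H : ℝ) ^ (1 / 3 : ℝ) with ht
  have ht0 : 0 < t := Real.rpow_pos_of_pos hHp _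
  have ht3 : t ^ 3 = H := by
    rw [ht, ← Real.rpow_natCast, ← Real.rpow_mul hHp.le]
    norm_num
  have ht2 : 2 ≤ t := by
    by_contra hc
    push Not at hc
    have h1 : t ^ 3 < 2 ^ 3 := pow_lt_pow_left₀ hc ht0.le (by norm_num)
    rw [ht3] at h1
    have h2 : (8 : ℝ) ≤ H := by exact_mod_cast hH8
    linarith
  have hte : 16 / ε ^ 2 ≤ t := by
    by_contra hc
    push Not at hc
    have h1 : t ^ 3 < (16 / ε ^ 2) ^ 3 := pow_lt_pow_left₀ hc ht0.le (by norm_num)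
    rw [ht3] at h1
    linarith
  have hlog1 : 1 ≤ Real.log H := by
    rw [Real.le_log_iff_exp_le hHp]
    have h1 := Real.exp_one_lt_d9
    have h2 : (8 : ℝ) ≤ H := by exact_mod_cast hH8
    linarith
  have hd1 : (1 : ℝ) ≤ d := by exact_mod_cast hd
  have hdt : (d : ℝ) ≤ t := by nlinarith
  have hlogt : Real.log H ≤ 3 * t := by
    have h1 := Real.log_le_rpow_div hHp.le (show (0 : ℝ) < 1 / 3 by norm_num)
    rw [← ht] at h1
    linarith
  have hdl : (d : ℝ) + Real.log H ≤ H := by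
    have h1 : 4 * t ≤ t ^ 3 := by
      have h2 : 4 ≤ t ^ 2 := by nlinarith
      have h3 : 4 * t ≤ t ^ 2 * t := mul_le_mul_of_nonneg_right h2 ht0.le
      linarith [h3, show t ^ 2 * t = t ^ 3 by ring]
    linarith
  have hSz : Sz H d ≤ (d + 1) * Real.log H := by
    unfold Sz
    have h1 : Real.log (d + Real.log H) ≤ Real.log H := Real.log_le_log (by linarith) hdl
    have h2 : (d : ℝ) * Real.log (d + Real.log H) ≤ d * Real.log H :=
      mul_le_mul_of_nonneg_left h1 (by positivity)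
    linarith
  have hsub : ∀ c : Fin (d + 1) → ℤ, (c ∈ Bxx d H ∧ (Len c : ℝ) < Sz H d / 2) →
      (c ∈ Bxx d H ∧ ∃ i, c i ^ 2 < H) := by
    rintro c ⟨hc, hl⟩
    refine ⟨hc, ?_⟩
    by_contra hcon
    push Not at hcon
    have h1 : ∑ i : Fin (d + 1), Real.log H / 2 ≤ (Len c : ℝ) := by
      unfold Len
      rw [Nat.cast_sum]
      exact Finset.sum_le_sum (fun i _ => log_le_size H (c i) (by omega) (hcon i))
    rw [Finset.sum_const, Finset.card_univ, Fintype.card_fin, nsmul_eq_mul] at h1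
    push_cast at h1
    linarith
  have hfin : Finite {c : Fin (d + 1) → ℤ // c ∈ Bxx d H ∧ ∃ i, c i ^ 2 < H} := by
    have : Finite {c : Fin (d + 1) → ℤ // c ∈ Bxx d H} := inferInstance
    exact Finite.of_injective (fun c : {c : Fin (d + 1) → ℤ // c ∈ Bxx d H ∧ ∃ i, c i ^ 2 < H} =>
      (⟨c.1, c.2.1⟩ : {c : Fin (d + 1) → ℤ // c ∈ Bxx d H})) (fun a b hab => by
        have := congrArg Subtype.val hab
        exact Subtype.ext this)
  have hcard : Nat.card {c : Fin (d + 1) → ℤ // c ∈ Bxx d H ∧ (Len c : ℝ) < Sz H d / 2} ≤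
      Nat.card {c : Fin (d + 1) → ℤ // c ∈ Bxx d H ∧ ∃ i, c i ^ 2 < H} :=
    Nat.card_le_card_of_injective
      (fun c : {c : Fin (d + 1) → ℤ // c ∈ Bxx d H ∧ (Len c : ℝ) < Sz H d / 2} =>
        (⟨c.1, hsub c.1 c.2⟩ : {c : Fin (d + 1) → ℤ // c ∈ Bxx d H ∧ ∃ i, c i ^ 2 < H}))
      (fun a b hab => by
        have := congrArg Subtype.val hab
        exact Subtype.ext this)
  have hle := hLe1 d H (by omega)
  have hmain : 2 * ((d : ℝ) + 1) / √H ≤ ε := by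
    have hsq : 0 < √(H : ℝ) := Real.sqrt_pos.2 hHp
    rw [div_le_iff₀ hsq]
    have h1 : 2 * ((d : ℝ) + 1) ≤ 4 * t := by linarith
    have h2 : 4 * t ≤ ε * √(H : ℝ) := by
      apply le_of_sq_le_sq _ (by positivity)
      have h3 : (ε * √(H : ℝ)) ^ 2 = ε ^ 2 * t ^ 3 := by
        rw [mul_pow, Real.sq_sqrt hHp.le, ht3]
      rw [h3]
      have h4 : 16 ≤ ε ^ 2 * t := by
        rw [div_le_iff₀ (by positivity)] at hte
        linarith
      have h5 : 16 * t ^ 2 ≤ (ε ^ 2 * t) * t ^ 2 := mul_le_mul_of_nonneg_right h4 (by positivity)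
      calc (4 * t) ^ 2 = 16 * t ^ 2 := by ring
        _ ≤ (ε ^ 2 * t) * t ^ 2 := h5
        _ = ε ^ 2 * t ^ 3 := by ring
    linarith
  calc (Nat.card {c : Fin (d + 1) → ℤ // c ∈ Bxx d H ∧ (Len c : ℝ) < Sz H d / 2} : ℝ)
      ≤ (Nat.card {c : Fin (d + 1) → ℤ // c ∈ Bxx d H ∧ ∃ i, c i ^ 2 < H} : ℝ) := by
        exact_mod_cast hcard
    _ ≤ 2 * (d + 1) / √H * #(Bxx d H) := hle
    _ ≤ ε * #(Bxx d H) := mul_le_mul_of_nonneg_right hmain (by positivity)

end Pool.Agent.Helper72.PV
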