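import Pool.Agent.Helper92.PV.St

/-!
# Project PV (MP_ad0dc2_nt), module PCH: the determinant of a patch
-/

set_option autoImplicit false

open Finset

noncomputable section

namespace Pool.Agent.Helper72.PV

open Pool.Agent.Helper92.PV Pool.Agent.Helper92.PU Pool.Agent.Helper92.PW

theorem max_rpow {B s : ℝ} (hB : 1 ≤ B) : max 1 (B ^ s) = B ^ (max 0 s) := by
  rcases le_total 0 s with h | h
  · rw [max_eq_right h, max_eq_right (Real.one_le_rpow hB h)]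
  · rw [max_eq_left h, Real.rpow_zero, max_eq_left (Real.rpow_le_one_of_one_le_of_nonpos hB h)]

theorem sum_l (M : ℕ) (F : ℕ → ℕ → ℝ) :
    ∑ l : Fin (M * M), F (finProdFinEquiv.symm l).1 (finProdFinEquiv.symm l).2 =
      ∑ i ∈ range M, ∑ j ∈ range M, F i j := by
  rw [Equiv.sum_comp finProdFinEquiv.symm (fun q : Fin M × Fin M => F q.1 q.2),
    Fintype.sum_prod_type, Finset.sum_range]
  refine Finset.sum_congr rfl fun i _ => ?_
  rw [Finset.sum_range]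

theorem det_mn {n D : ℕ} {E : Fin n → ℕ × ℕ} (hE : ∀ j, (E j).1 + (E j).2 ≤ D) {p : Fin n → Pt}
    (hz : ∀ i, ((p i).2.2 : ℝ) ≠ 0) :
    ((Matrix.det (Matrix.of fun i j : Fin n => mn D (E j) (p i)) : ℤ) : ℝ) =
      (∏ i, ((p i).2.2 : ℝ) ^ D) *
        Matrix.det (Matrix.of fun i j : Fin n => xi (p i) ^ (E j).1 * et (p i) ^ (E j).2) := by
  rw [← Matrix.det_mul_column, Int.cast_det]
  congr 1
  ext i j
  have h1 : ((mn D (E j) (p i) : ℤ) : ℝ) =
      ((p i).2.2 : ℝ) ^ D * (xi (p i) ^ (E j).1 * et (p i) ^ (E j).2) := by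
    have h2 : D = (E j).1 + (E j).2 + (D - (E j).1 - (E j).2) := by
      have := hE j
      omega
    have h3 : ((p i).2.2 : ℝ) ^ D =
        ((p i).2.2 : ℝ) ^ (E j).1 * ((p i).2.2 : ℝ) ^ (E j).2 *
          ((p i).2.2 : ℝ) ^ (D - (E j).1 - (E j).2) := by
      rw [← pow_add, ← pow_add, ← h2]
    rw [h3, mn, xi, et, div_pow, div_pow]
    push_cast
    have := hz i
    field_simp
  exact h1

theorem hPCH (hSG3 : StSG3) (hEXP : StEXP) (hDTB : StDTB) : StPCH := by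
  intro k D n a T ha ha1 hT
  rcases n with _ | n
  · refine ⟨1, 0, one_pos, ?_⟩
    intro B hB _ E _ p _ _
    simp
  set κ : ℝ := 8 * |(k : ℝ)| + 1 with hκ
  have hκ1 : 1 ≤ κ := by rw [hκ]; linarith [abs_nonneg (k : ℝ)]
  obtain ⟨K, M, hK1, hK⟩ := hEXP D a T κ ha ha1 hT (zero_lt_one.trans_le hκ1)
  set Kt : ℝ := max K (κ ^ M) with hKt
  have hKt1 : 1 ≤ Kt := hK1.trans (le_max_left _ _)
  obtain ⟨C1, hC1, hD⟩ := hDTB (n + 1) (M * M) Kt hKt1
  refine ⟨C1, M, hC1, ?_⟩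
  intro B hB hkB E hE p hp hpp
  have hB0 : 0 < B := zero_lt_one.trans_le hB
  have hsg := fun i => hSG3 k B hB hkB (p i) (hp i)
  obtain ⟨⟨h01, h02, h03, -, -⟩, -, -⟩ := hsg 0
  obtain ⟨c, hc1, hc2⟩ := hK B (xi (p 0)) hB (abs_le.2 ⟨h01, h02⟩) h03
  have hz : ∀ i, ((p i).2.2 : ℝ) ≠ 0 := by
    intro i h0
    have := (hp i).z_gt
    rw [h0, abs_zero] at this
    linarith
  set t : Fin (n + 1) → ℝ := fun i => xi (p i) - xi (p 0) with ht
  set e : Fin (n + 1) → ℝ := fun i => (k : ℝ) / ((p i).2.2 : ℝ) ^ 3 with he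
  have htB : ∀ i, |t i| ≤ B ^ (-a) := fun i => hpp i 0
  have hB3 : B ^ (-3 : ℝ) = (B ^ 3)⁻¹ := by
    rw [Real.rpow_neg hB0.le]
    congr 1
    exact_mod_cast Real.rpow_natCast B 3
  have heB : ∀ i, |e i| ≤ κ * B ^ (-3 : ℝ) := by
    intro i
    refine (hsg i).2.2.trans ?_
    rw [hB3, div_eq_mul_inv]
    have : 0 < (B ^ 3)⁻¹ := by positivity
    exact mul_le_mul_of_nonneg_right (by rw [hκ]; linarith) this.le
  set A : Matrix (Fin (n + 1)) (Fin (n + 1)) ℝ :=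
    Matrix.of fun i j => xi (p i) ^ (E j).1 * et (p i) ^ (E j).2 with hA
  have happ : ∀ i j, |A i j - ∑ i' ∈ range M, ∑ j' ∈ range M,
      c (E j).1 (E j).2 i' j' * t i ^ i' * e i ^ j'| ≤ K * B ^ (-T) := by
    intro i j
    obtain ⟨⟨h1, h2, h3, h4, h5⟩, h6, h7⟩ := hsg i
    have hx : xi (p 0) + t i = xi (p i) := by rw [ht]; ring
    have h8 := hc2 (t i) (e i) (et (p i)) (htB i) (heB i) (by rw [hx]; exact abs_le.2 ⟨h1, h2⟩)
      h4 (by linarith) (by rw [hx]; exact h6) (E j).1 (by have := hE j; omega) (E j).2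
      (by have := hE j; omega)
    rw [hx] at h8
    exact h8
  have hdet := hD (B ^ (-T)) (fun l => B ^ (-a * (finProdFinEquiv.symm l).1 -
      3 * (finProdFinEquiv.symm l).2 : ℝ)) A
    (fun i l => t i ^ ((finProdFinEquiv.symm l).1 : ℕ) * e i ^ ((finProdFinEquiv.symm l).2 : ℕ))
    (fun l j => c (E j).1 (E j).2 (finProdFinEquiv.symm l).1 (finProdFinEquiv.symm l).2)
    (Real.rpow_pos_of_pos hB0 _) (fun l => (Real.rpow_pos_of_pos hB0 _).le) ?_ ?_ ?_
  · rw [det_mn hE hz, abs_mul]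
    have h1 : |∏ i, ((p i).2.2 : ℝ) ^ D| ≤ B ^ (((n + 1 : ℕ) : ℝ) * D) := by
      rw [Finset.abs_prod]
      have h2 : ∏ i : Fin (n + 1), |((p i).2.2 : ℝ) ^ D| ≤ ∏ _i : Fin (n + 1), B ^ D := by
        refine Finset.prod_le_prod (fun i _ => abs_nonneg _) fun i _ => ?_
        rw [abs_pow]
        exact pow_le_pow_left₀ (abs_nonneg _) (hp i).z_le D
      refine h2.trans (le_of_eq ?_)
      rw [Finset.prod_const, Finset.card_univ, Fintype.card_fin, ← pow_mul, ← Real.rpow_natCast]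
      congr 1
      push_cast
      ring
    have h3 : ∏ l : Fin (M * M), max 1 (B ^ (-a * (finProdFinEquiv.symm l).1 -
        3 * (finProdFinEquiv.symm l).2 : ℝ) / B ^ (-T)) =
        B ^ (∑ i ∈ range M, ∑ j ∈ range M, max 0 (T - a * i - 3 * j)) := by
      rw [← sum_l M (fun i j => max 0 (T - a * i - 3 * j)), Real.rpow_sum_of_pos hB0]
      refine Finset.prod_congr rfl fun l _ => ?_
      rw [← Real.rpow_sub hB0, max_rpow hB]
      congr 2
      ring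
    have h4 : (B ^ (-T)) ^ (n + 1) = B ^ (-(((n + 1 : ℕ) : ℝ) * T)) := by
      rw [← Real.rpow_natCast, ← Real.rpow_mul hB0.le]
      congr 1
      ring
    rw [h3, h4] at hdet
    calc |∏ i, ((p i).2.2 : ℝ) ^ D| * |A.det|
        ≤ B ^ (((n + 1 : ℕ) : ℝ) * D) * (C1 * B ^ (-(((n + 1 : ℕ) : ℝ) * T)) *
          B ^ (∑ i ∈ range M, ∑ j ∈ range M, max 0 (T - a * i - 3 * j))) := by
          exact mul_le_mul h1 hdet (abs_nonneg _) (Real.rpow_pos_of_pos hB0 _).le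
      _ = C1 * B ^ (((n + 1 : ℕ) : ℝ) * D - ((n + 1 : ℕ) : ℝ) * T +
          ∑ i ∈ range M, ∑ j ∈ range M, max 0 (T - a * i - 3 * j)) := by
          rw [Real.rpow_add hB0, sub_eq_add_neg, Real.rpow_add hB0]
          ring
  · intro i l
    set i' : ℕ := ((finProdFinEquiv.symm l).1 : ℕ) with hi'
    set j' : ℕ := ((finProdFinEquiv.symm l).2 : ℕ) with hj'
    have hj'M : j' ≤ M := (finProdFinEquiv.symm l).2.2.le
    rw [abs_mul, abs_pow, abs_pow]
    have h1 : |t i| ^ i' ≤ (B ^ (-a)) ^ i' := pow_le_pow_left₀ (abs_nonneg _) (htB i) _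
    have h2 : |e i| ^ j' ≤ (κ * B ^ (-3 : ℝ)) ^ j' := pow_le_pow_left₀ (abs_nonneg _) (heB i) _
    have h3 : (B ^ (-a)) ^ i' = B ^ (-a * i') := by
      rw [← Real.rpow_natCast, ← Real.rpow_mul hB0.le]
    have h4 : (B ^ (-3 : ℝ)) ^ j' = B ^ (-3 * (j' : ℝ)) := by
      rw [← Real.rpow_natCast, ← Real.rpow_mul hB0.le]
    have h5 : κ ^ j' ≤ Kt := (pow_le_pow_right₀ hκ1 hj'M).trans (le_max_right _ _)
    rw [h3] at h1
    rw [mul_pow, h4] at h2
    have hb1 : 0 < B ^ (-a * (i' : ℝ)) := Real.rpow_pos_of_pos hB0 _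
    have hb2 : 0 < B ^ (-3 * (j' : ℝ)) := Real.rpow_pos_of_pos hB0 _
    calc |t i| ^ i' * |e i| ^ j' ≤ B ^ (-a * (i' : ℝ)) * (κ ^ j' * B ^ (-3 * (j' : ℝ))) :=
          mul_le_mul h1 h2 (by positivity) hb1.le
      _ ≤ B ^ (-a * (i' : ℝ)) * (Kt * B ^ (-3 * (j' : ℝ))) := by gcongr
      _ = Kt * B ^ (-a * (i' : ℝ) - 3 * (j' : ℝ)) := by
          have h6 : -a * (i' : ℝ) - 3 * (j' : ℝ) = -a * (i' : ℝ) + -3 * (j' : ℝ) := by ring
          rw [h6, Real.rpow_add hB0]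
          ring
  · intro l j
    exact (hc1 _ _ _ _).trans (le_max_left _ _)
  · intro i j
    have h1 := happ i j
    have h2 : ∑ l : Fin (M * M), t i ^ ((finProdFinEquiv.symm l).1 : ℕ) *
        e i ^ ((finProdFinEquiv.symm l).2 : ℕ) *
        c (E j).1 (E j).2 (finProdFinEquiv.symm l).1 (finProdFinEquiv.symm l).2 =
        ∑ i' ∈ range M, ∑ j' ∈ range M, c (E j).1 (E j).2 i' j' * t i ^ i' * e i ^ j' := by
      rw [← sum_l M (fun i' j' => c (E j).1 (E j).2 i' j' * t i ^ i' * e i ^ j')]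
      exact Finset.sum_congr rfl fun l _ => by ring
    rw [h2]
    have hb : 0 < B ^ (-T) := Real.rpow_pos_of_pos hB0 _
    exact h1.trans (mul_le_mul_of_nonneg_right (le_max_left _ _) hb.le)

end Pool.Agent.Helper72.PV
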